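import Mathlib

/-!
# The five-invariant of a Hamiltonian cycle of `K₅`

`MP_9405a7_co`, Q1: is the five-invariant of a 5-configuration `S` linearly factorable exactly when
`S` splits? No: in `K₅` let `S` be a cycle through all five vertices. Its complement is again such a
cycle; let `X 0, …, X 4` be the variables of its edges in cyclic order. Then `S` does not split and
`⁵Ψ(S) = -X₀X₁X₂X₃X₄ (X₀X₂ + X₀X₃ + X₁X₃ + X₁X₄ + X₂X₄)`.

All minors are computed by a block elimination: the block of the first cycle and of the vertices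
has determinant `X₀ + ⋯ + X₄` (`det_H`), and the rest is a minor of a `5 × 5` matrix of
(scaled) transfer resistances of a cycle network (`det_formula`).
-/

namespace Pool.Agent.Results.MP_9405a7_co.HamiltonCycle

open MvPolynomial Matrix

/-- A graph with `m` edges and `r + 1` vertices (loops and multiple edges allowed), with oriented
edges: the edge `e` goes from `src e` to `tgt e`. -/
structure Graph (m r : ℕ) where
  /-- the first end of an edge -/
  src : Fin m → Fin (r + 1)
  /-- the second end of an edge -/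
  tgt : Fin m → Fin (r + 1)

variable {m r : ℕ}

/-- The vertex-edge incidence matrix with the row of the last vertex deleted. -/
def inc (G : Graph m r) (v : Fin r) (e : Fin m) : ℤ :=
  (if G.src e = v.castSucc then 1 else 0) - (if G.tgt e = v.castSucc then 1 else 0)

/-- The matrix `M_G`, with the variables of the edges in `K` set to `0`. -/
noncomputable def MK (G : Graph m r) (K : Finset (Fin m)) :
    Matrix (Fin m ⊕ Fin r) (Fin m ⊕ Fin r) (MvPolynomial (Fin m) ℤ) :=
  Matrix.fromBlocks (Matrix.diagonal fun e => if e ∈ K then 0 else X e)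
    (Matrix.of fun e v => C (inc G v e)) (Matrix.of fun v e => -C (inc G v e)) 0

/-- The indices of the rows (columns) that stay when the rows (columns) of the edges in `I` are
removed. -/
def keep (r : ℕ) (I : Finset (Fin m)) : Finset (Fin (m + r)) :=
  Finset.univ.filter (fun x => ∀ e ∈ I, x ≠ Fin.castAdd r e)

/-- The Dodgson polynomial `Ψ^{I,J}_K`: the determinant of `M_G` without the rows of the edges in
`I` and the columns of the edges in `J`, the remaining rows and columns in their natural order (edges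
first, then vertices), with the variables of the edges in `K` set to `0`; it is `0` by convention if
`I` and `J` have different sizes. -/
noncomputable def dodgson (G : Graph m r) (I J K : Finset (Fin m)) : MvPolynomial (Fin m) ℤ :=
  if h : (keep r I).card = (keep r J).card then
    ((MK G K).submatrix (fun i => finSumFinEquiv.symm ((keep r I).orderEmbOfFin h i))
      (fun j => finSumFinEquiv.symm ((keep r J).orderEmbOfFin rfl j))).det
  else 0

/-- The five-invariant of the edges `e 0, …, e 4`. -/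
noncomputable def five (G : Graph m r) (e : Fin 5 → Fin m) : MvPolynomial (Fin m) ℤ :=
  dodgson G {e 0, e 1} {e 2, e 3} {e 4} * dodgson G {e 0, e 2, e 4} {e 1, e 3, e 4} ∅ -
    dodgson G {e 0, e 2} {e 1, e 3} {e 4} * dodgson G {e 0, e 1, e 4} {e 2, e 3, e 4} ∅

/-- `S` splits: one of its Dodgson polynomials is zero. -/
def Splits (G : Graph m r) (S : Finset (Fin m)) : Prop :=
  ∃ I J K : Finset (Fin m), I ∪ J ∪ K = S ∧
    ((I.card = 2 ∧ J.card = 2 ∧ Disjoint I J ∧ K.card = 1) ∨
      (I.card = 3 ∧ J.card = 3 ∧ (I ∩ J).card = 1 ∧ K = ∅)) ∧ dodgson G I J K = 0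

/-- Every irreducible factor has degree at most `1` in every variable. -/
def LinearlyFactorable (p : MvPolynomial (Fin m) ℤ) : Prop :=
  ∀ f : MvPolynomial (Fin m) ℤ, Irreducible f → f ∣ p → ∀ i, f.degreeOf i ≤ 1

/-! ### a block lemma -/

theorem det_block {n k : Type*} [Fintype n] [DecidableEq n] [Fintype k] [DecidableEq k]
    (A : Matrix n n ℤ) (B : Matrix n k ℤ) (C : Matrix k n ℤ) (Y : Matrix n k ℤ) (c : ℤ)
    (h : A * Y = c • B) :
    (Matrix.fromBlocks A B C 0).det * c ^ (Fintype.card k) = A.det * (-(C * Y)).det := by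
  have h1 : Matrix.fromBlocks A B C 0 * Matrix.fromBlocks 1 (-Y) 0 (c • (1 : Matrix k k ℤ)) =
      Matrix.fromBlocks A 0 C (-(C * Y)) := by
    rw [Matrix.fromBlocks_multiply]
    congr 1
    · simp
    · rw [Matrix.mul_neg, h, Matrix.mul_smul, Matrix.mul_one]
      exact neg_add_cancel _
    · simp
    · simp
  have h2 := congrArg Matrix.det h1
  rw [Matrix.det_mul, Matrix.det_fromBlocks_zero₂₁, Matrix.det_fromBlocks_zero₁₂, Matrix.det_one,
    one_mul, Matrix.det_smul, Matrix.det_one, mul_one] at h2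
  exact h2

/-! ### the graph -/

/-- `K₅`; the edges `0, …, 4` form the cycle `0 1 2 3 4`, the edges `5, …, 9` the other one. -/
def K5 : Graph 10 4 where
  src := ![0, 1, 2, 3, 4, 0, 2, 4, 1, 3]
  tgt := ![1, 2, 3, 4, 0, 2, 4, 1, 3, 0]

/-- index of an edge of the first cycle -/
def tE (t : Fin 5) : Fin 10 := Fin.castLE (by omega) t

/-- index of an edge of the second cycle -/
def sE (t : Fin 5) : Fin 10 := Fin.natAdd 5 t

/-- evaluated matrix -/
def NK (x : Fin 10 → ℤ) (K : Finset (Fin 10)) : Matrix (Fin 10 ⊕ Fin 4) (Fin 10 ⊕ Fin 4) ℤ :=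
  Matrix.fromBlocks (Matrix.diagonal fun e => if e ∈ K then 0 else x e)
    (Matrix.of fun e v => inc K5 v e) (Matrix.of fun v e => -inc K5 v e) 0

theorem eval_MK (x : Fin 10 → ℤ) (K : Finset (Fin 10)) :
    (MK K5 K).map (eval x) = NK x K := by
  unfold MK NK
  rw [Matrix.fromBlocks_map]
  congr 1
  · rw [Matrix.diagonal_map (map_zero _)]
    congr 1
    funext e
    split_ifs <;> simp
  · ext e v; simp
  · ext v e; simp

theorem dodgson_eq (G : Graph m r) (I J K : Finset (Fin m)) (n : ℕ)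
    (hI : (keep r I).card = n) (hJ : (keep r J).card = n) :
    dodgson G I J K =
      ((MK G K).submatrix (fun i => finSumFinEquiv.symm ((keep r I).orderEmbOfFin hI i))
      (fun j => finSumFinEquiv.symm ((keep r J).orderEmbOfFin hJ j))).det := by
  subst hJ
  rw [dodgson, dif_pos hI]

/-- the rows kept, for `k` remaining edges of the second cycle -/
def ρ {k : ℕ} (σ : Fin k → Fin 5) : (Fin 5 ⊕ Fin 4) ⊕ Fin k → Fin 10 ⊕ Fin 4
  | Sum.inl (Sum.inl t) => Sum.inl (tE t)
  | Sum.inl (Sum.inr v) => Sum.inr v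
  | Sum.inr i => Sum.inl (sE (σ i))

/-- position -/
def posf (k : ℕ) : (Fin 5 ⊕ Fin 4) ⊕ Fin k → Fin (k + 9)
  | Sum.inl (Sum.inl t) => ⟨t, by omega⟩
  | Sum.inl (Sum.inr v) => ⟨5 + k + v, by omega⟩
  | Sum.inr i => ⟨5 + i, by omega⟩

theorem posf_bij3 : Function.Bijective (posf 3) := by decide
theorem posf_bij2 : Function.Bijective (posf 2) := by decide

/-- `I` and `σ` correspond: the remaining edges of the second cycle are `σ 0 < σ 1 < …`. -/
def Good (k : ℕ) (I : Finset (Fin 10)) (σ : Fin k → Fin 5) : Prop :=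
  (keep 4 I).card = k + 9 ∧
    (∀ z, finSumFinEquiv (ρ σ z) ∈ keep 4 I) ∧
    ∀ z w, posf k z < posf k w → finSumFinEquiv (ρ σ z) < finSumFinEquiv (ρ σ w)

instance (k : ℕ) (I : Finset (Fin 10)) (σ : Fin k → Fin 5) : Decidable (Good k I σ) := by
  unfold Good; infer_instance

theorem emb_eq {k : ℕ} (hb : Function.Bijective (posf k)) {I : Finset (Fin 10)}
    {σ : Fin k → Fin 5} (h : Good k I σ) (z : (Fin 5 ⊕ Fin 4) ⊕ Fin k) :
    finSumFinEquiv.symm ((keep 4 I).orderEmbOfFin h.1 (posf k z)) = ρ σ z := by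
  set e := Equiv.ofBijective _ hb with he
  have hf : (fun i => finSumFinEquiv (ρ σ (e.symm i))) = (keep 4 I).orderEmbOfFin h.1 := by
    apply Finset.orderEmbOfFin_unique
    · intro i
      exact h.2.1 _
    · intro i j hij
      apply h.2.2
      have h1 : posf k (e.symm i) = i := e.apply_symm_apply i
      have h2 : posf k (e.symm j) = j := e.apply_symm_apply j
      rw [h1, h2]
      exact hij
  rw [← hf]
  have h1 : e.symm (posf k z) = z := e.symm_apply_apply z
  simp only [h1, Equiv.symm_apply_apply]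

theorem eval_dodgson {k : ℕ} (hb : Function.Bijective (posf k)) {I J : Finset (Fin 10)}
    {σ σ' : Fin k → Fin 5} (hI : Good k I σ) (hJ : Good k J σ') (K : Finset (Fin 10))
    (x : Fin 10 → ℤ) :
    eval x (dodgson K5 I J K) = ((NK x K).submatrix (ρ σ) (ρ σ')).det := by
  rw [dodgson_eq K5 I J K (k + 9) hI.1 hJ.1]
  rw [RingHom.map_det, ← eval_MK x K]
  rw [← Matrix.det_submatrix_equiv_self (Equiv.ofBijective _ hb)]
  congr 1
  ext z w
  simp only [Matrix.submatrix_apply, RingHom.mapMatrix_apply, Matrix.map_apply,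
    Equiv.ofBijective_apply, emb_eq hb hI, emb_eq hb hJ]

/-! ### the numbers -/

/-- the block of the first cycle and the vertices -/
def H (y : Fin 5 → ℤ) : Matrix (Fin 5 ⊕ Fin 4) (Fin 5 ⊕ Fin 4) ℤ :=
  Matrix.fromBlocks (Matrix.diagonal y) (Matrix.of fun t v => inc K5 v (tE t))
    (Matrix.of fun v t => -inc K5 v (tE t)) 0

/-- columns of the second cycle -/
def Bc : Matrix (Fin 5 ⊕ Fin 4) (Fin 5) ℤ
  | Sum.inl _, _ => 0
  | Sum.inr v, j => -inc K5 v (sE j)

/-- rows of the second cycle -/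
def Cr : Matrix (Fin 5) (Fin 5 ⊕ Fin 4) ℤ
  | _, Sum.inl _ => 0
  | i, Sum.inr v => inc K5 v (sE i)

/-- sum of the weights of the first cycle -/
def tot (y : Fin 5 → ℤ) : ℤ := y 0 + y 1 + y 2 + y 3 + y 4

/-- first vertex of the `j`-th edge of the second cycle -/
def us : Fin 5 → Fin 5 := ![0, 2, 4, 1, 3]

/-- the current in the edge `t` of the first cycle -/
def cur (y : Fin 5 → ℤ) (j t : Fin 5) : ℤ :=
  if t = us j ∨ t = us j + 1 then tot y - (y (us j) + y (us j + 1))
  else -(y (us j) + y (us j + 1))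

/-- currents and potentials -/
def Y (y : Fin 5 → ℤ) : Matrix (Fin 5 ⊕ Fin 4) (Fin 5) ℤ
  | Sum.inl t, j => cur y j t
  | Sum.inr v, j => ![y 4 * cur y j 4, y 4 * cur y j 4 + y 0 * cur y j 0,
      y 4 * cur y j 4 + y 0 * cur y j 0 + y 1 * cur y j 1,
      y 4 * cur y j 4 + y 0 * cur y j 0 + y 1 * cur y j 1 + y 2 * cur y j 2] v

theorem HY (y : Fin 5 → ℤ) : H y * Y y = tot y • Bc := by
  ext z j
  rw [Matrix.mul_apply, Fintype.sum_sum_type, Matrix.smul_apply, smul_eq_mul]
  rcases z with t | v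
  · fin_cases t <;> fin_cases j <;>
      simp [H, Y, Bc, inc, K5, tE, cur, us, tot, Fin.sum_univ_succ, Matrix.diagonal] <;> ring
  · fin_cases v <;> fin_cases j <;>
      simp [H, Y, Bc, inc, K5, tE, sE, cur, us, tot, Fin.sum_univ_succ, Matrix.diagonal] <;> ring

/-- product of the other weights -/
def oth (y : Fin 5 → ℤ) : Fin 5 → ℤ :=
  ![y 1 * y 2 * y 3 * y 4, y 0 * y 2 * y 3 * y 4, y 0 * y 1 * y 3 * y 4, y 0 * y 1 * y 2 * y 4,
    y 0 * y 1 * y 2 * y 3]

theorem det_lap (y : Fin 5 → ℤ) :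
    (-((Matrix.of fun (v : Fin 4) (t : Fin 5) => -inc K5 v (tE t)) *
      (Matrix.of fun (t : Fin 5) (v : Fin 4) => oth y t * inc K5 v (tE t)))).det =
      (y 0 * y 1 * y 2 * y 3 * y 4) ^ 3 * tot y := by
  have h : (-((Matrix.of fun (v : Fin 4) (t : Fin 5) => -inc K5 v (tE t)) *
      (Matrix.of fun (t : Fin 5) (v : Fin 4) => oth y t * inc K5 v (tE t)))) =
      !![oth y 0 + oth y 4, -oth y 0, 0, 0; -oth y 0, oth y 0 + oth y 1, -oth y 1, 0;
        0, -oth y 1, oth y 1 + oth y 2, -oth y 2; 0, 0, -oth y 2, oth y 2 + oth y 3] := by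
    ext v w
    fin_cases v <;> fin_cases w <;>
      simp [Matrix.mul_apply, Fin.sum_univ_succ, inc, K5, tE] <;> ring
  rw [h]
  simp [Matrix.det_succ_row_zero, Fin.sum_univ_succ, Fin.succAbove, oth, tot]
  ring

theorem det_H (y : Fin 5 → ℤ) (hy : ∀ t, y t ≠ 0) : (H y).det = tot y := by
  have h1 := det_block (Matrix.diagonal y) (Matrix.of fun t v => inc K5 v (tE t))
    (Matrix.of fun (v : Fin 4) (t : Fin 5) => -inc K5 v (tE t))
    (Matrix.of fun (t : Fin 5) (v : Fin 4) => oth y t * inc K5 v (tE t))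
    (y 0 * y 1 * y 2 * y 3 * y 4) (by
      ext t v
      rw [Matrix.diagonal_mul, Matrix.smul_apply, smul_eq_mul, Matrix.of_apply, Matrix.of_apply,
        ← mul_assoc]
      congr 1
      fin_cases t <;> simp [oth] <;> ring)
  rw [det_lap, Matrix.det_diagonal, Fintype.card_fin] at h1
  have h2 : ∏ i, y i = y 0 * y 1 * y 2 * y 3 * y 4 := by
    simp [Fin.prod_univ_succ]; ring
  rw [h2] at h1
  have h3 : (y 0 * y 1 * y 2 * y 3 * y 4) ≠ 0 := by
    simp [hy]
  have h4 : (H y).det * (y 0 * y 1 * y 2 * y 3 * y 4) ^ 4 =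
      tot y * (y 0 * y 1 * y 2 * y 3 * y 4) ^ 4 := by
    unfold H
    rw [h1]
    ring
  exact mul_right_cancel₀ (pow_ne_zero 4 h3) h4

/-- the transfer numbers -/
def q (y : Fin 5 → ℤ) (i j : Fin 5) : ℤ := ((-(Cr * Y y)) : Matrix (Fin 5) (Fin 5) ℤ) i j

theorem block_form {k : ℕ} (σ σ' : Fin k → Fin 5) (x : Fin 10 → ℤ) (K : Finset (Fin 10))
    (hK : ∀ t, tE t ∉ K) (h0 : ∀ i j, σ i = σ' j → sE (σ i) ∈ K ∨ x (sE (σ i)) = 0) :
    (NK x K).submatrix (ρ σ) (ρ σ') =
      Matrix.fromBlocks (H fun t => x (tE t)) (Bc.submatrix id σ') (Cr.submatrix σ id) 0 := by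
  ext z w
  rcases z with (t | v) | i <;> rcases w with (t' | v') | j
  · simp only [NK, H, ρ, Matrix.submatrix_apply, Matrix.fromBlocks_apply₁₁]
    by_cases h : t = t'
    · subst h; simp [hK t]
    · have : tE t ≠ tE t' := by
        intro h'; apply h; simpa [tE, Fin.ext_iff] using h'
      simp [h, this]
  · simp [NK, H, ρ]
  · have : tE t ≠ sE (σ' j) := by
      intro h'; simp only [tE, sE, Fin.ext_iff, Fin.val_castLE, Fin.val_natAdd] at h'; omega
    simp [NK, ρ, Bc, this]
  · simp [NK, H, ρ]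
  · simp [NK, H, ρ]
  · simp [NK, ρ, Bc]
  · have : sE (σ i) ≠ tE t' := by
      intro h'; simp only [tE, sE, Fin.ext_iff, Fin.val_castLE, Fin.val_natAdd] at h'; omega
    simp [NK, ρ, Cr, this]
  · simp [NK, ρ, Cr]
  · simp only [NK, ρ, Matrix.submatrix_apply, Matrix.fromBlocks_apply₁₁,
      Matrix.fromBlocks_apply₂₂, Matrix.zero_apply]
    by_cases h : σ i = σ' j
    · rw [← h, Matrix.diagonal_apply_eq]
      rcases h0 i j h with h1 | h1
      · rw [if_pos h1]
      · split_ifs
        · rfl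
        · exact h1
    · apply Matrix.diagonal_apply_ne
      intro h'
      apply h
      simpa [sE, Fin.ext_iff] using h'

theorem det_formula {k : ℕ} (σ σ' : Fin k → Fin 5) (x : Fin 10 → ℤ) (K : Finset (Fin 10))
    (hK : ∀ t, tE t ∉ K) (h0 : ∀ i j, σ i = σ' j → sE (σ i) ∈ K ∨ x (sE (σ i)) = 0)
    (hx : ∀ t, x (tE t) ≠ 0) :
    ((NK x K).submatrix (ρ σ) (ρ σ')).det * tot (fun t => x (tE t)) ^ k =
      tot (fun t => x (tE t)) *
        (Matrix.of fun i j => q (fun t => x (tE t)) (σ i) (σ' j)).det := by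
  rw [block_form σ σ' x K hK h0]
  have h1 := det_block (H fun t => x (tE t)) (Bc.submatrix id σ') (Cr.submatrix σ id)
    ((Y fun t => x (tE t)).submatrix id σ') (tot (fun t => x (tE t))) (by
      ext i j
      exact congrFun (congrFun (HY fun t => x (tE t)) i) (σ' j))
  rw [Fintype.card_fin, det_H _ hx] at h1
  rw [h1]
  rfl

/-- the two-element sets of edges of the second cycle, with the remaining edges -/
def L3 : List (Finset (Fin 10) × (Fin 3 → Fin 5)) :=
  [({5, 6}, ![2, 3, 4]), ({5, 7}, ![1, 3, 4]), ({5, 8}, ![1, 2, 4]), ({5, 9}, ![1, 2, 3]), ({6,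
  7}, ![0, 3, 4]), ({6, 8}, ![0, 2, 4]), ({6, 9}, ![0, 2, 3]), ({7, 8}, ![0, 1, 4]), ({7, 9},
  ![0, 1, 3]), ({8, 9}, ![0, 1, 2])]

/-- the three-element sets of edges of the second cycle, with the remaining edges -/
def L2 : List (Finset (Fin 10) × (Fin 2 → Fin 5)) :=
  [({5, 6, 7}, ![3, 4]), ({5, 6, 8}, ![2, 4]), ({5, 6, 9}, ![2, 3]), ({5, 7, 8}, ![1, 4]), ({5,
  7, 9}, ![1, 3]), ({5, 8, 9}, ![1, 2]), ({6, 7, 8}, ![0, 4]), ({6, 7, 9}, ![0, 3]), ({6, 8, 9},
  ![0, 2]), ({7, 8, 9}, ![0, 1])]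

theorem card_keep {m r : ℕ} (I : Finset (Fin m)) : (keep r I).card = m + r - I.card := by
  have h : keep r I = Finset.univ \ I.map (Fin.castAddEmb r) := by
    ext x
    simp only [keep, Finset.mem_filter, Finset.mem_univ, true_and, Finset.mem_sdiff,
      Finset.mem_map, not_exists, not_and]
    constructor
    · intro h e he hx
      exact h e he hx.symm
    · intro h e he hx
      exact h e he hx.symm
  rw [h, Finset.card_sdiff_of_subset (Finset.subset_univ _), Finset.card_univ, Fintype.card_fin,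
    Finset.card_map]

theorem good_of {k : ℕ} {I : Finset (Fin 10)} {σ : Fin k → Fin 5} (h1 : I.card + k = 5)
    (h2 : ∀ t, tE t ∉ I) (h3 : ∀ i, sE (σ i) ∉ I) (h4 : ∀ i j, i < j → σ i < σ j) :
    Good k I σ := by
  refine ⟨?_, ?_, ?_⟩
  · rw [card_keep]; omega
  · intro z
    simp only [keep, Finset.mem_filter, Finset.mem_univ, true_and]
    intro e he hz
    rcases z with (t | v) | i
    · simp only [ρ, finSumFinEquiv_apply_left, Fin.ext_iff, Fin.val_castAdd] at hz
      have : tE t = e := Fin.ext hz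
      exact h2 t (this ▸ he)
    · simp only [ρ, finSumFinEquiv_apply_right, Fin.ext_iff, Fin.val_castAdd,
        Fin.val_natAdd] at hz
      omega
    · simp only [ρ, finSumFinEquiv_apply_left, Fin.ext_iff, Fin.val_castAdd] at hz
      have : sE (σ i) = e := Fin.ext hz
      exact h3 i (this ▸ he)
  · intro z w hzw
    rcases z with (t | v) | i <;> rcases w with (t' | v') | j <;>
      simp only [ρ, posf, finSumFinEquiv_apply_left, finSumFinEquiv_apply_right, Fin.lt_def,
        Fin.val_castAdd, Fin.val_natAdd, tE, sE, Fin.val_castLE] at hzw ⊢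
    · omega
    · omega
    · omega
    · omega
    · omega
    · omega
    · omega
    · omega
    · have := h4 i j (by rw [Fin.lt_def]; omega)
      rw [Fin.lt_def] at this
      omega

theorem good3 : ∀ p ∈ L3, Good 3 p.1 p.2 := by
  have h : (L3.all fun p => decide (p.1.card + 3 = 5 ∧ (∀ t, tE t ∉ p.1) ∧
      (∀ i, sE (p.2 i) ∉ p.1) ∧ ∀ i j, i < j → p.2 i < p.2 j)) = true := by decide +kernel
  intro p hp
  obtain ⟨h1, h2, h3, h4⟩ := of_decide_eq_true (List.all_eq_true.1 h p hp)
  exact good_of h1 h2 h3 h4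

theorem good2 : ∀ p ∈ L2, Good 2 p.1 p.2 := by
  have h : (L2.all fun p => decide (p.1.card + 2 = 5 ∧ (∀ t, tE t ∉ p.1) ∧
      (∀ i, sE (p.2 i) ∉ p.1) ∧ ∀ i j, i < j → p.2 i < p.2 j)) = true := by decide +kernel
  intro p hp
  obtain ⟨h1, h2, h3, h4⟩ := of_decide_eq_true (List.all_eq_true.1 h p hp)
  exact good_of h1 h2 h3 h4

/-- the weights at which the Dodgson polynomials are evaluated -/
def y0 : Fin 5 → ℤ := ![1, 2, 3, 5, 7]

/-- the transfer numbers for these weights -/
def qv : Fin 5 → Fin 5 → ℤ :=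
  ![![45, -24, -6, 21, -36], ![-24, 80, -64, 14, -6], ![-6, -64, 80, -40, 30],
    ![21, 14, -40, 65, -60], ![-36, -6, 30, -60, 72]]

theorem qv_eq (i j : Fin 5) : q y0 i j = qv i j := by
  fin_cases i <;> fin_cases j <;>
    simp [q, qv, Cr, Y, y0, inc, K5, sE, cur, us, tot, Matrix.mul_apply, Fintype.sum_sum_type,
      Fin.sum_univ_succ]

/-- determinant of order three -/
def d3 (f : Fin 3 → Fin 3 → ℤ) : ℤ :=
  f 0 0 * f 1 1 * f 2 2 - f 0 0 * f 1 2 * f 2 1 - f 0 1 * f 1 0 * f 2 2
    + f 0 1 * f 1 2 * f 2 0 + f 0 2 * f 1 0 * f 2 1 - f 0 2 * f 1 1 * f 2 0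

theorem nz3 : ∀ p ∈ L3, ∀ p' ∈ L3, Disjoint p.1 p'.1 →
    d3 (fun i j => qv (p.2 i) (p'.2 j)) ≠ 0 := by
  have h : (L3.all fun p => L3.all fun p' => decide (Disjoint p.1 p'.1 →
    d3 (fun i j => qv (p.2 i) (p'.2 j)) ≠ 0)) = true := by decide +kernel
  intro p hp p' hp'
  exact of_decide_eq_true (List.all_eq_true.1 (List.all_eq_true.1 h p hp) p' hp')

theorem nz2 : ∀ p ∈ L2, ∀ p' ∈ L2, (p.1 ∩ p'.1).card = 1 →
    qv (p.2 0) (p'.2 0) * qv (p.2 1) (p'.2 1) -
      qv (p.2 0) (p'.2 1) * qv (p.2 1) (p'.2 0) ≠ 0 := by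
  have h : (L2.all fun p => L2.all fun p' => decide ((p.1 ∩ p'.1).card = 1 →
    qv (p.2 0) (p'.2 0) * qv (p.2 1) (p'.2 1) -
      qv (p.2 0) (p'.2 1) * qv (p.2 1) (p'.2 0) ≠ 0)) = true := by decide +kernel
  intro p hp p' hp'
  exact of_decide_eq_true (List.all_eq_true.1 (List.all_eq_true.1 h p hp) p' hp')

/-- the edges of the second cycle -/
def S5 : Finset (Fin 10) := {5, 6, 7, 8, 9}

theorem all3 : ∀ I ∈ S5.powersetCard 2, ∃ σ, (I, σ) ∈ L3 := by
  have h : S5.powersetCard 2 = (L3.map Prod.fst).toFinset := by decide +kernel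
  intro I hI
  rw [h, List.mem_toFinset, List.mem_map] at hI
  obtain ⟨p, hp, rfl⟩ := hI
  exact ⟨p.2, hp⟩

theorem all2 : ∀ I ∈ S5.powersetCard 3, ∃ σ, (I, σ) ∈ L2 := by
  have h : S5.powersetCard 3 = (L2.map Prod.fst).toFinset := by decide +kernel
  intro I hI
  rw [h, List.mem_toFinset, List.mem_map] at hI
  obtain ⟨p, hp, rfl⟩ := hI
  exact ⟨p.2, hp⟩

/-- the point of evaluation -/
def x0 : Fin 10 → ℤ := ![1, 2, 3, 5, 7, 0, 0, 0, 0, 0]

theorem x0_t : (fun t => x0 (tE t)) = y0 := by decide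

theorem x0_s : ∀ t, x0 (sE t) = 0 := by decide

theorem notSplit : ¬ Splits K5 S5 := by
  rintro ⟨I, J, K, hU, hcase, h0⟩
  have hIS : I ⊆ S5 := by rw [← hU]; exact (Finset.subset_union_left.trans Finset.subset_union_left)
  have hJS : J ⊆ S5 := by rw [← hU]; exact (Finset.subset_union_right.trans Finset.subset_union_left)
  have hKS : K ⊆ S5 := by rw [← hU]; exact Finset.subset_union_right
  have hK : ∀ t, tE t ∉ K := by
    intro t ht
    have h1 : tE t ∈ S5 := hKS ht
    have h2 : ∀ t, tE t ∉ S5 := by decide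
    exact h2 t h1
  have hx : ∀ t, x0 (tE t) ≠ 0 := by decide
  have ev := congrArg (eval x0) h0
  rw [map_zero] at ev
  rcases hcase with ⟨hI, hJ, hd, _⟩ | ⟨hI, hJ, hd, _⟩
  · obtain ⟨σ, hσ⟩ := all3 I (Finset.mem_powersetCard.2 ⟨hIS, hI⟩)
    obtain ⟨σ', hσ'⟩ := all3 J (Finset.mem_powersetCard.2 ⟨hJS, hJ⟩)
    rw [eval_dodgson posf_bij3 (good3 _ hσ) (good3 _ hσ') K x0] at ev
    have h1 := det_formula σ σ' x0 K hK (fun i j _ => Or.inr (x0_s _)) hx
    rw [ev, zero_mul, x0_t, Matrix.det_fin_three] at h1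
    have h2 := nz3 _ hσ _ hσ' hd
    simp only [Matrix.of_apply, qv_eq] at h1
    have h3 : tot y0 ≠ 0 := by decide
    exact (mul_ne_zero h3 h2) h1.symm
  · obtain ⟨σ, hσ⟩ := all2 I (Finset.mem_powersetCard.2 ⟨hIS, hI⟩)
    obtain ⟨σ', hσ'⟩ := all2 J (Finset.mem_powersetCard.2 ⟨hJS, hJ⟩)
    rw [eval_dodgson posf_bij2 (good2 _ hσ) (good2 _ hσ') K x0] at ev
    have h1 := det_formula σ σ' x0 K hK (fun i j _ => Or.inr (x0_s _)) hx
    rw [ev, zero_mul, x0_t, Matrix.det_fin_two] at h1
    have h2 := nz2 _ hσ _ hσ' hd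
    simp only [Matrix.of_apply, qv_eq] at h1
    have h3 : tot y0 ≠ 0 := by decide
    exact (mul_ne_zero h3 h2) h1.symm

/-- the order in which the five-invariant is taken -/
def ed : Fin 5 → Fin 10 := ![5, 6, 8, 7, 9]

theorem dA (y : Fin 5 → ℤ) :
    tot y * (Matrix.of fun i j => q y (![2, 3, 4] i) (![0, 1, 4] j)).det =
      -(y 0 * y 2 * y 3 * y 4) * tot y ^ 3 := by
  rw [Matrix.det_fin_three]
  simp [q, Cr, Y, inc, K5, sE, cur, us, tot, Matrix.mul_apply, Fintype.sum_sum_type,
      Fin.sum_univ_succ]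
  ring

theorem dB (y : Fin 5 → ℤ) :
    tot y * (Matrix.of fun i j => q y (![1, 2] i) (![0, 3] j)).det =
      (y 1 * y 2 * y 4 + y 0 * y 1 * y 3 + y 0 * y 1 * y 2) * tot y ^ 2 := by
  rw [Matrix.det_fin_two]
  simp [q, Cr, Y, inc, K5, sE, cur, us, tot, Matrix.mul_apply, Fintype.sum_sum_type,
      Fin.sum_univ_succ]
  ring

theorem dC (y : Fin 5 → ℤ) :
    tot y * (Matrix.of fun i j => q y (![1, 2, 4] i) (![0, 3, 4] j)).det =
      (y 0 * y 1 * y 2 * y 4 + y 0 * y 1 * y 2 * y 3) * tot y ^ 3 := by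
  rw [Matrix.det_fin_three]
  simp [q, Cr, Y, inc, K5, sE, cur, us, tot, Matrix.mul_apply, Fintype.sum_sum_type,
      Fin.sum_univ_succ]
  ring

theorem dD (y : Fin 5 → ℤ) :
    tot y * (Matrix.of fun i j => q y (![2, 3] i) (![0, 1] j)).det =
      (y 1 * y 3 * y 4) * tot y ^ 2 := by
  rw [Matrix.det_fin_two]
  simp [q, Cr, Y, inc, K5, sE, cur, us, tot, Matrix.mul_apply, Fintype.sum_sum_type,
      Fin.sum_univ_succ]
  ring

theorem five_eq : five K5 ed = -(X 0 * X 1 * X 2 * X 3 * X 4 *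
    (X 0 * X 2 + X 0 * X 3 + X 1 * X 3 + X 1 * X 4 + X 2 * X 4)) := by
  refine MvPolynomial.funext_set (fun _ => Set.Ioi 0) (fun _ => Set.Ioi_infinite 0) ?_
  intro x hx
  have hpos : ∀ i, 0 < x i := fun i => hx i (Set.mem_univ i)
  have hne : ∀ t, x (tE t) ≠ 0 := fun t => (hpos _).ne'
  set y : Fin 5 → ℤ := fun t => x (tE t) with hy
  have htot : tot y ≠ 0 := by
    have : 0 < tot y := by
      have h := fun t => hpos (tE t)
      have h0 := h 0
      have h1 := h 1
      have h2 := h 2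
      have h3 := h 3
      have h4 := h 4
      simp only [tot, hy]
      omega
    exact this.ne'
  have hA : eval x (dodgson K5 {ed 0, ed 1} {ed 2, ed 3} {ed 4}) = -(y 0 * y 2 * y 3 * y 4) := by
    rw [eval_dodgson (σ := ![2, 3, 4]) (σ' := ![0, 1, 4]) posf_bij3
      (good_of (by decide) (by decide) (by decide) (by decide))
      (good_of (by decide) (by decide) (by decide) (by decide))]
    have h1 := det_formula ![2, 3, 4] ![0, 1, 4] x {ed 4} (by decide)
      (fun i j h => Or.inl (by revert i j; decide)) hne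
    rw [dA] at h1
    exact mul_right_cancel₀ (pow_ne_zero 3 htot) h1
  have hB : eval x (dodgson K5 {ed 0, ed 2, ed 4} {ed 1, ed 3, ed 4} ∅) =
      y 1 * y 2 * y 4 + y 0 * y 1 * y 3 + y 0 * y 1 * y 2 := by
    rw [eval_dodgson (σ := ![1, 2]) (σ' := ![0, 3]) posf_bij2
      (good_of (by decide) (by decide) (by decide) (by decide))
      (good_of (by decide) (by decide) (by decide) (by decide))]
    have h1 := det_formula ![1, 2] ![0, 3] x ∅ (by decide)
      (fun i j h => absurd h (by revert i j; decide)) hne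
    rw [dB] at h1
    exact mul_right_cancel₀ (pow_ne_zero 2 htot) h1
  have hC : eval x (dodgson K5 {ed 0, ed 2} {ed 1, ed 3} {ed 4}) =
      y 0 * y 1 * y 2 * y 4 + y 0 * y 1 * y 2 * y 3 := by
    rw [eval_dodgson (σ := ![1, 2, 4]) (σ' := ![0, 3, 4]) posf_bij3
      (good_of (by decide) (by decide) (by decide) (by decide))
      (good_of (by decide) (by decide) (by decide) (by decide))]
    have h1 := det_formula ![1, 2, 4] ![0, 3, 4] x {ed 4} (by decide)
      (fun i j h => Or.inl (by revert i j; decide)) hne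
    rw [dC] at h1
    exact mul_right_cancel₀ (pow_ne_zero 3 htot) h1
  have hD : eval x (dodgson K5 {ed 0, ed 1, ed 4} {ed 2, ed 3, ed 4} ∅) =
      y 1 * y 3 * y 4 := by
    rw [eval_dodgson (σ := ![2, 3]) (σ' := ![0, 1]) posf_bij2
      (good_of (by decide) (by decide) (by decide) (by decide))
      (good_of (by decide) (by decide) (by decide) (by decide))]
    have h1 := det_formula ![2, 3] ![0, 1] x ∅ (by decide)
      (fun i j h => absurd h (by revert i j; decide)) hne
    rw [dD] at h1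
    exact mul_right_cancel₀ (pow_ne_zero 2 htot) h1
  have e0 : y 0 = x 0 := rfl
  have e1 : y 1 = x 1 := rfl
  have e2 : y 2 = x 2 := rfl
  have e3 : y 3 = x 3 := rfl
  have e4 : y 4 = x 4 := rfl
  unfold five
  rw [map_sub, map_mul, map_mul, hA, hB, hC, hD]
  simp only [map_neg, map_mul, map_add, eval_X, e0, e1, e2, e3, e4]
  ring

theorem deg_mono {f g : MvPolynomial (Fin 10) ℤ} (hfg : f ∣ g) (hg : g ≠ 0) (i : Fin 10) :
    f.degreeOf i ≤ g.degreeOf i := by
  obtain ⟨h, rfl⟩ := hfg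
  rw [degreeOf_mul_eq (left_ne_zero_of_mul hg) (right_ne_zero_of_mul hg)]
  exact Nat.le_add_right _ _

theorem deg_pair (a b : Fin 10) (hab : a ≠ b) (i : Fin 10) :
    (X a * X b : MvPolynomial (Fin 10) ℤ).degreeOf i ≤ 1 := by
  refine (degreeOf_mul_le _ _ _).trans ?_
  rw [degreeOf_X, degreeOf_X]
  split_ifs with h1 h2
  · exact absurd (h1.symm.trans h2) hab
  · norm_num
  · norm_num
  · norm_num

theorem linfact : LinearlyFactorable (five K5 ed) := by
  intro f hf hdvd i
  have hp : Prime f := hf.prime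
  rw [five_eq, dvd_neg] at hdvd
  have hX : ∀ a : Fin 10, f ∣ X a → f.degreeOf i ≤ 1 := by
    intro a ha
    refine (deg_mono ha (X_ne_zero a) i).trans ?_
    rw [degreeOf_X]
    split_ifs <;> norm_num
  rcases hp.dvd_or_dvd hdvd with h | h
  · rcases hp.dvd_or_dvd h with h | h
    · rcases hp.dvd_or_dvd h with h | h
      · rcases hp.dvd_or_dvd h with h | h
        · rcases hp.dvd_or_dvd h with h | h
          · exact hX _ h
          · exact hX _ h
        · exact hX _ h
      · exact hX _ h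
    · exact hX _ h
  · refine (deg_mono h ?_ i).trans ?_
    · intro h0
      have := congrArg (eval (fun _ => (1 : ℤ))) h0
      simp at this
    · refine (degreeOf_add_le _ _ _).trans (max_le ?_ (deg_pair _ _ (by decide) i))
      refine (degreeOf_add_le _ _ _).trans (max_le ?_ (deg_pair _ _ (by decide) i))
      refine (degreeOf_add_le _ _ _).trans (max_le ?_ (deg_pair _ _ (by decide) i))
      exact (degreeOf_add_le _ _ _).trans
        (max_le (deg_pair _ _ (by decide) i) (deg_pair _ _ (by decide) i))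

theorem ed_inj : Function.Injective ed := by decide

theorem ed_image : Finset.univ.image ed = S5 := by decide

/-- There are a graph and five distinct edges such that the set of these edges does not split while
the five-invariant is linearly factorable. -/
theorem result : ∃ (m r : ℕ) (G : Graph m r) (e : Fin 5 → Fin m), Function.Injective e ∧
    ¬ Splits G (Finset.univ.image e) ∧ LinearlyFactorable (five G e) :=
  ⟨10, 4, K5, ed, ed_inj, by rw [ed_image]; exact notSplit, linfact⟩

end Pool.Agent.Results.MP_9405a7_co.HamiltonCycle
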